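import Mathlib
import Pool.Agent.H43.TheonC4

set_option autoImplicit false

/-!
Every strong `T_{C_4}`-on is almost everywhere equal to a Borel strong `T_{C_4}`-on.
-/

namespace Pool.Agent.Results.MP_351e8f_co.BorelStrongC4

open MeasureTheory

/-- A finite relational language: finitely many predicate symbols of arity at least one. -/
structure Lang where
  /-- predicate symbols -/
  Sym : Type
  /-- there are finitely many of them -/
  finite : Finite Sym
  /-- arities -/
  ar : Sym → ℕ
  /-- arities are at least one -/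
  ar_pos : ∀ P, 1 ≤ ar P

/-- An `L`-structure with vertex set `V`. -/
def Str (L : Lang) (V : Type) : Type := ∀ P : L.Sym, (Fin (L.ar P) → V) → Prop

/-- Canonical structures: every predicate is false on tuples with a repeated entry. -/
def Canonical {L : Lang} {V : Type} (M : Str L V) : Prop :=
  ∀ (P : L.Sym) (v : Fin (L.ar P) → V), M P v → Function.Injective v

/-- The space `[0,1]^{r(V)}`, where `r(V)` is the set of nonempty subsets of `V`. -/
abbrev Pt (V : Type) : Type := {A : Finset V // A.Nonempty} → unitInterval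

/-- The map `α^* : [0,1]^{r(V)} → [0,1]^{r([k])}`, `α^*(x)_A = x_{α(A)}`. -/
def pull {k : ℕ} {V : Type} (α : Fin k ↪ V) (x : Pt V) : Pt (Fin k) :=
  fun A => x ⟨A.1.map α, A.2.map⟩

/-- A family of sets `N_P ⊆ [0,1]^{r([k(P)])}`. -/
abbrev Euc (L : Lang) : Type := ∀ P : L.Sym, Set (Pt (Fin (L.ar P)))

/-- `T_ind(M, N)`. -/
def Tind {L : Lang} {V : Type} (M : Str L V) (N : Euc L) : Set (Pt V) :=
  {x | ∀ (P : L.Sym) (α : Fin (L.ar P) ↪ V), pull α x ∈ N P ↔ M P α}

/-- The diagonal: two distinct vertices have the same first-order coordinate. -/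
def Diag (V : Type) : Set (Pt V) :=
  {x | ∃ i j : V, i ≠ j ∧ x ⟨{i}, Finset.singleton_nonempty i⟩ = x ⟨{j}, Finset.singleton_nonempty j⟩}

/-- `N` (with every `N_P` Lebesgue measurable) is a strong `T`-on, where the theory `T` is given by
the predicate `is a model of T` on structures. -/
def IsStrong {L : Lang} (T : ∀ V : Type, Str L V → Prop) (N : Euc L) : Prop :=
  (∀ P, NullMeasurableSet (N P) volume) ∧
  ∀ (V : Type) [Fintype V] (M : Str L V), Canonical M → ¬ T V M → Tind M N ⊆ Diag V

/-- The assertion of Q1 for the theory `T`: every strong `T`-on agrees almost everywhere with a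
Borel strong `T`-on. -/
def BorelAssertion {L : Lang} (T : ∀ V : Type, Str L V → Prop) : Prop :=
  ∀ N : Euc L, IsStrong T N →
    ∃ N' : Euc L, (∀ P, MeasurableSet (N' P)) ∧ IsStrong T N' ∧
      ∀ P, volume (symmDiff (N P) (N' P)) = 0

/-- The language with one binary predicate symbol. -/
abbrev graphLang : Lang where
  Sym := Unit
  finite := inferInstance
  ar := fun _ => 2
  ar_pos := fun _ => by norm_num

/-- Models of `T_{C_4}`: irreflexive, symmetric, and no four distinct vertices induce a 4-cycle. -/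
def TC4 (V : Type) (M : Str graphLang V) : Prop :=
  (∀ x, ¬ M () ![x, x]) ∧ (∀ x y, M () ![x, y] → M () ![y, x]) ∧
  ¬ ∃ a b c d : V, a ≠ b ∧ a ≠ c ∧ a ≠ d ∧ b ≠ c ∧ b ≠ d ∧ c ≠ d ∧
    M () ![a, b] ∧ M () ![b, c] ∧ M () ![c, d] ∧ M () ![d, a] ∧ ¬ M () ![a, c] ∧ ¬ M () ![b, d]

/-! ### Proof -/

open Pool.Agent.H43.TheonC4

/-- The point of `[0,1]^{r([2])}` with the three given coordinates. -/
def tri (q : J × J × J) : Pt (Fin 2) :=
  fun A => if A.1 = {0} then q.1 else if A.1 = {1} then q.2.1 else q.2.2

theorem three (A : {A : Finset (Fin 2) // A.Nonempty}) :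
    A = ⟨{0}, by simp⟩ ∨ A = ⟨{1}, by simp⟩ ∨ A = ⟨{0, 1}, by simp⟩ := by
  revert A; decide

theorem pull_eq {V : Type} [DecidableEq V] (α : Fin 2 ↪ V) (x : Pt V) :
    pull α x = tri (x ⟨{α 0}, by simp⟩, x ⟨{α 1}, by simp⟩, x ⟨{α 0, α 1}, by simp⟩) := by
  funext A
  rcases three A with rfl | rfl | rfl
  · simp only [pull, tri, if_true]
    congr 1
  · have h : ¬ (({1} : Finset (Fin 2)) = {0}) := by decide
    simp only [pull, tri, h, if_false, if_true]
    congr 1
  · have h : ¬ (({0, 1} : Finset (Fin 2)) = {0}) := by decide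
    have h' : ¬ (({0, 1} : Finset (Fin 2)) = {1}) := by decide
    simp only [pull, tri, h, h', if_false]
    congr 1
    ext1
    simp

theorem tri_mp : MeasurePreserving tri volume volume := by
  have hm : Measurable tri := by
    rw [measurable_pi_iff]
    intro A
    unfold tri
    split_ifs
    · exact measurable_fst
    · exact measurable_fst.comp measurable_snd
    · exact measurable_snd.comp measurable_snd
  refine ⟨hm, ?_⟩
  rw [volume_pi]
  symm
  refine Measure.pi_eq fun s hs => ?_
  rw [Measure.map_apply hm (MeasurableSet.univ_pi hs)]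
  have h1 : tri ⁻¹' Set.univ.pi s = s ⟨{0}, by simp⟩ ×ˢ (s ⟨{1}, by simp⟩ ×ˢ s ⟨{0, 1}, by simp⟩) := by
    have h : ¬ (({1} : Finset (Fin 2)) = {0}) := by decide
    have h2 : ¬ (({0, 1} : Finset (Fin 2)) = {0}) := by decide
    have h3 : ¬ (({0, 1} : Finset (Fin 2)) = {1}) := by decide
    ext q
    simp only [Set.mem_preimage, Set.mem_pi, Set.mem_univ, true_imp_iff, Set.mem_prod]
    constructor
    · intro hq
      have e0 := hq ⟨{0}, by simp⟩
      have e1 := hq ⟨{1}, by simp⟩
      have e2 := hq ⟨{0, 1}, by simp⟩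
      simp only [tri, if_true, h, h2, h3, if_false] at e0 e1 e2
      exact ⟨e0, e1, e2⟩
    · rintro ⟨e0, e1, e2⟩ A
      rcases three A with rfl | rfl | rfl
      · simpa only [tri, if_true] using e0
      · simpa only [tri, if_true, h, if_false] using e1
      · simpa only [tri, h2, h3, if_false] using e2
  have h2 : (Finset.univ : Finset {A : Finset (Fin 2) // A.Nonempty}) =
      {⟨{0}, by simp⟩, ⟨{1}, by simp⟩, ⟨{0, 1}, by simp⟩} := by decide
  rw [h1, h2]
  have h3 : (volume : Measure (J × J × J)) = (volume : Measure J).prod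
    ((volume : Measure J).prod volume) := rfl
  rw [h3, Measure.prod_prod, Measure.prod_prod, Finset.prod_insert (by decide),
    Finset.prod_insert (by decide), Finset.prod_singleton]

/-- The structure on `V` read off from a point `x`. -/
def Mx (S : Set (Pt (Fin 2))) {V : Type} [DecidableEq V] (x : Pt V) : Str graphLang V :=
  fun _ (v : Fin 2 → V) => Function.Injective v ∧
    tri (x ⟨{v 0}, by simp⟩, x ⟨{v 1}, by simp⟩, x ⟨{v 0, v 1}, by simp⟩) ∈ S

theorem Mx_iff (S : Set (Pt (Fin 2))) {V : Type} [DecidableEq V] (x : Pt V) (a b : V) :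
    Mx S x () ![a, b] ↔ a ≠ b ∧
      tri (x ⟨{a}, by simp⟩, x ⟨{b}, by simp⟩, x ⟨{a, b}, by simp⟩) ∈ S := by
  unfold Mx
  have h : Function.Injective ![a, b] ↔ a ≠ b := by
    constructor
    · intro h hab
      have : ![a, b] 0 = ![a, b] 1 := by simpa using hab
      exact absurd (h this) (by decide)
    · intro hab i j hij
      fin_cases i <;> fin_cases j <;> simp at hij ⊢ <;> first | exact hab hij | exact hab hij.symm
  rw [h]
  rfl

theorem strong_mp (N : Euc graphLang)
    (hN : ∀ (V : Type) [Fintype V] (M : Str graphLang V), Canonical M → ¬ TC4 V M →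
      Tind M N ⊆ Diag V) (V : Type) [Fintype V] [DecidableEq V] (x : Pt V) (hx : x ∉ Diag V) :
    TC4 V (Mx (N ()) x) := by
  by_contra h
  refine hx (hN V (Mx (N ()) x) (fun P v hv => hv.1) h ?_)
  intro P α
  have h1 : Mx (N ()) x () α ↔ pull (k := 2) α x ∈ N () := by
    rw [pull_eq]
    exact ⟨fun h => h.2, fun h => ⟨α.injective, h⟩⟩
  exact h1.symm

theorem strong_mpr (N : Euc graphLang)
    (hN : ∀ (V : Type) [Fintype V] [DecidableEq V] (x : Pt V), x ∉ Diag V → TC4 V (Mx (N ()) x)) :
    ∀ (V : Type) [Fintype V] (M : Str graphLang V), Canonical M → ¬ TC4 V M →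
      Tind M N ⊆ Diag V := by
  classical
  intro V _ M hM hT x hx
  by_contra h
  apply hT
  have h1 : M = Mx (N ()) x := by
    funext P v
    have key : ∀ v : Fin 2 → V, M () v ↔ Mx (N ()) x () v := by
      intro v
      by_cases hv : Function.Injective v
      · have h2 : pull (k := 2) ⟨v, hv⟩ x ∈ N () ↔ M () v := hx () ⟨v, hv⟩
        rw [← h2, pull_eq]
        exact ⟨fun h => ⟨hv, h⟩, fun h => h.2⟩
      · exact ⟨fun h => absurd (hM () v h) hv, fun h => absurd h.1 hv⟩
    exact propext (key v)
  rw [h1]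
  exact hN V x h

/-- **Theorem** (Q2, affirmative).  Every strong `T_{C_4}`-on agrees almost everywhere with a Borel
strong `T_{C_4}`-on. -/
theorem result : BorelAssertion TC4 := by
  classical
  intro N hN
  obtain ⟨hNm, hNs⟩ := hN
  have hS := strong_mp N hNs
  let Nb : J → J → J → Prop := fun v w t => tri (v, w, t) ∈ N ()
  have hsing : ∀ {V : Type} [DecidableEq V] (x : Pt V), x ∉ Diag V → ∀ a b : V, a ≠ b →
      x ⟨{a}, by simp⟩ ≠ x ⟨{b}, by simp⟩ := by
    intro V _ x hx a b hab h
    exact hx ⟨a, b, hab, h⟩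
  -- symmetry
  have hsym : ∀ v w t, v ≠ w → Nb v w t → Nb w v t := by
    intro v w t hvw h
    have hx : tri (v, w, t) ∉ Diag (Fin 2) := by
      rintro ⟨i, j, hij, h1⟩
      have e0 : tri (v, w, t) ⟨{0}, by simp⟩ = v := by simp [tri]
      have e1 : tri (v, w, t) ⟨{1}, by simp⟩ = w := by
        have h : ¬ (({1} : Finset (Fin 2)) = {0}) := by decide
        simp [tri]
      fin_cases i <;> fin_cases j
      · exact hij rfl
      · exact hvw (e0.symm.trans (h1.trans e1))
      · exact hvw (e0.symm.trans (h1.symm.trans e1))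
      · exact hij rfl
    obtain ⟨-, h2, -⟩ := hS (Fin 2) (tri (v, w, t)) hx
    have h3 := h2 0 1
    rw [Mx_iff, Mx_iff] at h3
    have e0 : tri (v, w, t) ⟨{0}, by simp⟩ = v := by simp [tri]
    have e1 : tri (v, w, t) ⟨{1}, by simp⟩ = w := by simp [tri]
    have e2 : tri (v, w, t) ⟨{0, 1}, by simp⟩ = t := by
      have h : ¬ (({0, 1} : Finset (Fin 2)) = {0}) := by decide
      have h' : ¬ (({0, 1} : Finset (Fin 2)) = {1}) := by decide
      simp only [tri, h, h', if_false]
    have e3 : tri (v, w, t) ⟨{1, 0}, by simp⟩ = t := by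
      have h : ¬ (({1, 0} : Finset (Fin 2)) = {0}) := by decide
      have h' : ¬ (({1, 0} : Finset (Fin 2)) = {1}) := by decide
      simp only [tri, h, h', if_false]
    rw [e0, e1, e2, e3] at h3
    exact (h3 ⟨by decide, h⟩).2
  -- no induced 4-cycles
  have hC : ∀ X : Fin 4 → J, Function.Injective X → ∀ t, C4Free (sy Nb X t) := by
    intro X hX t
    let x : Pt (Fin 4) := fun A => if A.1.min' A.2 = A.1.max' A.2 then X (A.1.min' A.2)
      else t (A.1.min' A.2) (A.1.max' A.2)
    have x1 : ∀ i, x ⟨{i}, by simp⟩ = X i := by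
      intro i
      simp [x]
    have x2 : ∀ i j, i < j → x ⟨{i, j}, by simp⟩ = t i j := by
      intro i j hij
      have hmin : ({i, j} : Finset (Fin 4)).min' (by simp) = i := by
        apply le_antisymm
        · exact Finset.min'_le _ _ (by simp)
        · apply Finset.le_min'
          intro y hy
          simp only [Finset.mem_insert, Finset.mem_singleton] at hy
          rcases hy with rfl | rfl
          · exact le_rfl
          · exact hij.le
      have hmax : ({i, j} : Finset (Fin 4)).max' (by simp) = j := by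
        apply le_antisymm
        · apply Finset.max'_le
          intro y hy
          simp only [Finset.mem_insert, Finset.mem_singleton] at hy
          rcases hy with rfl | rfl
          · exact hij.le
          · exact le_rfl
        · exact Finset.le_max' _ _ (by simp)
      simp only [x, hmin, hmax, hij.ne, if_false]
    have hx : x ∉ Diag (Fin 4) := by
      rintro ⟨i, j, hij, h1⟩
      have h2 : x ⟨{i}, by simp⟩ = x ⟨{j}, by simp⟩ := h1
      rw [x1, x1] at h2
      exact hij (hX h2)
    obtain ⟨-, -, h3⟩ := hS (Fin 4) x hx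
    have key : ∀ i j, i ≠ j → (sy Nb X t i j ↔ Mx (N ()) x () ![i, j]) := by
      intro i j hij
      rw [Mx_iff, x1, x1]
      rcases lt_or_gt_of_ne hij with h | h
      · rw [x2 i j h]
        simp [sy, Nb, h, h.le.not_gt, hij]
      · have e : x ⟨{i, j}, by simp⟩ = t j i := by
          have : (⟨{i, j}, by simp⟩ : {A : Finset (Fin 4) // A.Nonempty}) = ⟨{j, i}, by simp⟩ := by
            ext1; exact Finset.pair_comm i j
          rw [this, x2 j i h]
        rw [e]
        have hne : X i ≠ X j := hX.ne hij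
        have : Nb (X j) (X i) (t j i) ↔ Nb (X i) (X j) (t j i) :=
          ⟨hsym _ _ _ hne.symm, hsym _ _ _ hne⟩
        simp only [sy, h, h.le.not_gt, false_and, true_and, false_or, this, ne_eq, hij,
          not_false_eq_true]
        rfl
    intro a b c d hab hac had hbc hbd hcd e1 e2 e3 e4 e5 e6
    refine h3 ⟨a, b, c, d, hab, hac, had, hbc, hbd, hcd, (key _ _ hab).mp e1, (key _ _ hbc).mp e2,
      (key _ _ hcd).mp e3, (key _ _ had.symm).mp e4, fun h => e5 ((key _ _ hac).mpr h),
      fun h => e6 ((key _ _ hbd).mpr h)⟩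
  have hNm' : NullMeasurableSet {q : J × J × J | Nb q.1 q.2.1 q.2.2} volume :=
    (hNm ()).preimage tri_mp.quasiMeasurePreserving
  obtain ⟨N', hN'm, hN's, hN'C, hN'ae⟩ := core Nb hNm' hsym hC
  let S : Set (Pt (Fin 2)) := {y | N' (y ⟨{0}, by simp⟩) (y ⟨{1}, by simp⟩) (y ⟨{0, 1}, by simp⟩)}
  have hSm : MeasurableSet S := by
    have : Measurable fun y : Pt (Fin 2) =>
        (y ⟨{0}, by simp⟩, y ⟨{1}, by simp⟩, y ⟨{0, 1}, by simp⟩) :=
      (measurable_pi_apply _).prodMk ((measurable_pi_apply _).prodMk (measurable_pi_apply _))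
    exact this hN'm
  have htri : ∀ v w t, tri (v, w, t) ∈ S ↔ N' v w t := by
    intro v w t
    have e0 : tri (v, w, t) ⟨{0}, by simp⟩ = v := by simp [tri]
    have e1 : tri (v, w, t) ⟨{1}, by simp⟩ = w := by simp [tri]
    have e2 : tri (v, w, t) ⟨{0, 1}, by simp⟩ = t := by
      have h : ¬ (({0, 1} : Finset (Fin 2)) = {0}) := by decide
      have h' : ¬ (({0, 1} : Finset (Fin 2)) = {1}) := by decide
      simp only [tri, h, h', if_false]
    change N' (tri (v, w, t) ⟨{0}, by simp⟩) (tri (v, w, t) ⟨{1}, by simp⟩)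
      (tri (v, w, t) ⟨{0, 1}, by simp⟩) ↔ _
    rw [e0, e1, e2]
  refine ⟨fun _ => S, fun _ => hSm, ⟨fun _ => hSm.nullMeasurableSet, ?_⟩, ?_⟩
  · apply strong_mpr
    intro V _ _ x hx
    refine ⟨?_, ?_, ?_⟩
    · intro a h
      rw [Mx_iff] at h
      exact h.1 rfl
    · intro a b h
      rw [Mx_iff, htri] at h ⊢
      refine ⟨h.1.symm, ?_⟩
      have : (⟨{b, a}, by simp⟩ : {A : Finset V // A.Nonempty}) = ⟨{a, b}, by simp⟩ := by
        ext1; exact Finset.pair_comm b a
      rw [this]
      exact hN's _ _ _ h.2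
    · rintro ⟨a, b, c, d, hab, hac, had, hbc, hbd, hcd, e1, e2, e3, e4, e5, e6⟩
      let y : Fin 4 → V := ![a, b, c, d]
      have hy : Function.Injective y := by
        intro i j hij
        fin_cases i <;> fin_cases j <;> simp [y] at hij ⊢ <;>
          first
          | exact hab hij | exact hac hij | exact had hij | exact hbc hij | exact hbd hij
          | exact hcd hij | exact hab hij.symm | exact hac hij.symm | exact had hij.symm
          | exact hbc hij.symm | exact hbd hij.symm | exact hcd hij.symm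
      let X : Fin 4 → J := fun i => x ⟨{y i}, by simp⟩
      have hX : Function.Injective X := by
        intro i j hij
        by_contra hne
        exact hsing x hx (y i) (y j) (hy.ne hne) hij
      have key : ∀ i j, i ≠ j → (sy N' X (fun i j => x ⟨{y i, y j}, by simp⟩) i j ↔
          Mx S x () ![y i, y j]) := by
        intro i j hij
        rw [Mx_iff, htri]
        rcases lt_or_gt_of_ne hij with h | h
        · simp [sy, X, h, h.le.not_gt, hy.ne hij]
        · have e : (⟨{y j, y i}, by simp⟩ : {A : Finset V // A.Nonempty}) =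
              ⟨{y i, y j}, by simp⟩ := by
            ext1; exact Finset.pair_comm _ _
          have : ∀ t, N' (X j) (X i) t ↔ N' (X i) (X j) t := fun t => ⟨hN's _ _ _, hN's _ _ _⟩
          simp only [sy, h, h.le.not_gt, false_and, true_and, false_or, this, e, ne_eq,
            hy.ne hij, not_false_eq_true]
          rfl
      have := hN'C X hX (fun i j => x ⟨{y i, y j}, by simp⟩) 0 1 2 3 (by decide) (by decide)
        (by decide) (by decide) (by decide) (by decide)
        ((key 0 1 (by decide)).mpr e1) ((key 1 2 (by decide)).mpr e2)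
        ((key 2 3 (by decide)).mpr e3) ((key 3 0 (by decide)).mpr e4)
        (fun h => e5 ((key 0 2 (by decide)).mp h)) (fun h => e6 ((key 1 3 (by decide)).mp h))
      exact this
  · intro P
    have hNP : NullMeasurableSet (N ()) volume := hNm ()
    have h1 : NullMeasurableSet (symmDiff (N ()) S) volume :=
      (hNP.diff hSm.nullMeasurableSet).union (hSm.nullMeasurableSet.diff hNP)
    have h2 := tri_mp.measure_preimage h1
    have h3 : volume (tri ⁻¹' (symmDiff (N ()) S)) = 0 := by
      have h4 : ∀ᵐ q : J × J × J, q ∉ tri ⁻¹' (symmDiff (N ()) S) := by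
        filter_upwards [hN'ae] with q hq
        have h5 : tri q ∈ S ↔ N' q.1 q.2.1 q.2.2 := htri q.1 q.2.1 q.2.2
        have h6 : tri q ∈ N () ↔ Nb q.1 q.2.1 q.2.2 := Iff.rfl
        simp only [Set.mem_preimage, Set.mem_symmDiff]
        rw [h5, h6]
        tauto
      simpa [ae_iff] using h4
    rw [h2] at h3
    exact h3

end Pool.Agent.Results.MP_351e8f_co.BorelStrongC4
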