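import Mathlib
import Pool.Agent.H97.Theon.Gen
import Pool.Agent.H97.Theon.MT

set_option autoImplicit false
set_option linter.unusedSectionVars false

/-!
There are a finite language, a canonical universal theory `T` and a strong `T`-on which is not
almost everywhere equal to any Borel strong `T`-on.
-/

namespace Pool.Agent.Results.MP_351e8f_co.NoBorelStrongTheon

open MeasureTheory FirstOrder Language Structure

/-- A language in the sense of the problem: finitely many predicate symbols, each of arity at least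
one, and no constant or function symbols. -/
structure IsPredicateLanguage (L : FirstOrder.Language.{0, 0}) : Prop where
  /-- there are no function symbols (constants are function symbols of arity zero) -/
  noFunctions : ∀ k, IsEmpty (L.Functions k)
  /-- there are finitely many predicate symbols -/
  finite : Finite (Σ k, L.Relations k)
  /-- arities are at least one -/
  arity_pos : IsEmpty (L.Relations 0)

/-- An `L`-structure is canonical if every predicate is false on tuples with a repeated entry. -/
def Canonical (L : FirstOrder.Language.{0, 0}) (V : Type) [L.Structure V] : Prop :=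
  ∀ (k : ℕ) (P : L.Relations k) (v : Fin k → V), RelMap P v → Function.Injective v

/-- A canonical universal theory. -/
structure IsCanonicalUniversal {L : FirstOrder.Language.{0, 0}} (T : L.Theory) : Prop where
  /-- every axiom is a universal sentence -/
  universal : ∀ φ ∈ T, φ.IsUniversal
  /-- all models are canonical -/
  canonical : ∀ (V : Type) [L.Structure V], V ⊨ T → Canonical L V

/-- The space `𝓔_V = [0,1]^{r(V)}`, where `r(V)` is the set of nonempty subsets of `V`. -/
abbrev Pt (V : Type) : Type := {A : Finset V // A.Nonempty} → unitInterval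

/-- The map `α^* : 𝓔_V → 𝓔_k`, `α^*(x)_A = x_{α(A)}`. -/
def pull {k : ℕ} {V : Type} (α : Fin k ↪ V) (x : Pt V) : Pt (Fin k) :=
  fun A => x ⟨A.1.map α, A.2.map⟩

/-- A family of sets `N_P ⊆ 𝓔_{k(P)}`. -/
abbrev Euc (L : FirstOrder.Language.{0, 0}) : Type := ∀ k : ℕ, L.Relations k → Set (Pt (Fin k))

/-- `T_ind(M, N)`, for a structure `M` with vertex set `V`. -/
def Tind (L : FirstOrder.Language.{0, 0}) (V : Type) [L.Structure V] (N : Euc L) : Set (Pt V) :=
  {x | ∀ (k : ℕ) (P : L.Relations k) (α : Fin k ↪ V), pull α x ∈ N k P ↔ RelMap P α}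

/-- The diagonal `𝓓_V`. -/
def Diag (V : Type) : Set (Pt V) :=
  {x | ∃ i j : V, i ≠ j ∧
    x ⟨{i}, Finset.singleton_nonempty i⟩ = x ⟨{j}, Finset.singleton_nonempty j⟩}

/-- `N` is a strong `T`-on: all `N_P` are Lebesgue measurable, and `T_ind(M, N) ⊆ 𝓓_{V(M)}` for
every finite canonical structure `M` that is not a model of `T`. -/
def IsStrong {L : FirstOrder.Language.{0, 0}} (T : L.Theory) (N : Euc L) : Prop :=
  (∀ k P, NullMeasurableSet (N k P) volume) ∧
  ∀ (V : Type) [Finite V] [L.Structure V], Canonical L V → ¬ (V ⊨ T) → Tind L V N ⊆ Diag V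

/-- All `N_P` are Borel. -/
def IsBorel {L : FirstOrder.Language.{0, 0}} (N : Euc L) : Prop :=
  ∀ k P, MeasurableSet (N k P)

/-! ### Proof -/

open Pool.Agent.H97.Theon

/-- The predicate symbols. -/
inductive Rel : ℕ → Type
  | K (r r' : Fin 3) : Rel 6
  | P (r : Fin 3) : Rel 4

/-- The language. -/
def L0 : FirstOrder.Language.{0, 0} := ⟨fun _ => Empty, Rel⟩

instance : L0.IsRelational := fun _ => inferInstanceAs (IsEmpty Empty)

instance : Finite (Σ k, L0.Relations k) := by
  let f : (Fin 3 × Fin 3) ⊕ Fin 3 → Σ k, L0.Relations k :=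
    Sum.elim (fun p => ⟨6, Rel.K p.1 p.2⟩) (fun r => ⟨4, Rel.P r⟩)
  refine Finite.of_surjective f ?_
  rintro ⟨k, R⟩
  cases R with
  | K r r' => exact ⟨Sum.inl (r, r'), rfl⟩
  | P r => exact ⟨Sum.inr r, rfl⟩

/-- Meaning of the predicates. -/
def cond : ∀ {k : ℕ}, Rel k → (Fin k → Om) → Prop
  | _, .K r r', y => D r (y 0, y 1, y 2) ≤ D r' (y 3, y 4, y 5)
  | _, .P r, y => fP (D r (y 0, y 1, y 2)) (y 3)

/-- The value of a vertex. -/
noncomputable def val (x : unitInterval) : Om := (pr x).1

/-- The strong theon. -/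
def N0 : Euc L0 := fun _ P => {x | cond P (vals x)}

/-- The structure on the unit interval. -/
def BigN : Type := unitInterval

instance : L0.Structure BigN where
  funMap := fun f => isEmptyElim f
  RelMap := fun P v => Function.Injective v ∧ cond P (fun i => val (v i))

/-- Its universal theory. -/
def T0 : L0.Theory := {φ | φ.IsUniversal ∧ BigN ⊨ φ}

instance : T0.IsUniversal := ⟨fun _ h => h.1⟩

instance bigN_models : BigN ⊨ T0 := by
  rw [Theory.model_iff]
  exact fun φ h => h.2

theorem embeds {V : Type} [Finite V] [L0.Structure V] (h : V ⊨ T0) : Nonempty (V ↪[L0] BigN) := by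
  refine MT.embed fun φ hφ hN => ?_
  exact Theory.realize_sentence_of_mem T0 ⟨hφ, hN⟩

theorem canonical_of_models (V : Type) [L0.Structure V] (h : V ⊨ T0) : Canonical L0 V := by
  intro k P v hv
  let S : L0.Substructure V := ⟨Set.range v, fun f => isEmptyElim f⟩
  have hfin : Finite S := Set.finite_range v
  have hS : S ⊨ T0 := inferInstance
  obtain ⟨f⟩ := embeds hS
  let v' : Fin k → S := fun i => ⟨v i, i, rfl⟩
  have h1 : RelMap P v' := by
    rw [← S.subtype.map_rel P v']
    exact hv
  rw [← f.map_rel P v'] at h1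
  have h2 : Function.Injective (f ∘ v') := h1.1
  intro a b hab
  apply h2
  change f (v' a) = f (v' b)
  congr 1
  exact Subtype.ext hab

theorem mem_N0 {k : ℕ} (P : L0.Relations k) (x : Pt (Fin k)) :
    x ∈ N0 k P ↔ cond P (fun i => val (x (sg i))) := Iff.rfl

theorem pull_sg {k : ℕ} {V : Type} (α : Fin k ↪ V) (x : Pt V) (i : Fin k) :
    pull α x (sg i) = x (sg (α i)) := by
  change x ⟨(sg i).1.map α, _⟩ = _
  rw [map_sg]

theorem strong0 (V : Type) [Finite V] [L0.Structure V] (hC : Canonical L0 V) (hV : ¬ (V ⊨ T0)) :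
    Tind L0 V N0 ⊆ Diag V := by
  intro x hx
  by_contra hD
  apply hV
  have hinj : Function.Injective fun v : V => x (sg v) := by
    intro a b hab
    by_contra hne
    exact hD ⟨a, b, hne, hab⟩
  let f : V ↪[L0] BigN := ⟨⟨fun v => x (sg v), hinj⟩, fun f => isEmptyElim f, by
    intro k P v
    change (Function.Injective (fun i => x (sg (v i))) ∧
      cond P (fun i => val (x (sg (v i))))) ↔ RelMap P v
    constructor
    · rintro ⟨h1, h2⟩
      have h3 : Function.Injective v := fun a b hab => h1 (by simp only [hab])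
      have h4 := (hx k P ⟨v, h3⟩).mp (by
        rw [mem_N0]
        simp only [pull_sg]
        exact h2)
      exact h4
    · intro h1
      have h3 := hC k P v h1
      refine ⟨hinj.comp h3, ?_⟩
      have h4 := (hx k P ⟨v, h3⟩).mpr h1
      rw [mem_N0] at h4
      simp only [pull_sg] at h4
      exact h4⟩
  exact Theory.IsUniversal.models_of_embedding f

theorem null0 (k : ℕ) (P : L0.Relations k) : NullMeasurableSet (N0 k P) volume := by
  have key : NullMeasurableSet {y : Fin k → Om | cond P y} (Measure.pi fun _ => mu) := by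
    cases P with
    | K r r' =>
      have h1 : Measurable fun y : Fin 6 → Om => ((y 0, y 1, y 2), (y 3, y 4, y 5)) := by fun_prop
      exact (h1 (D_le_D_meas r r')).nullMeasurableSet
    | P r =>
      have h1 : Measurable fun y : Fin 4 → Om => ((y 0, y 1, y 2), y 3) := by fun_prop
      have h2 : MeasurePreserving (fun y : Fin 4 → Om => ((y 0, y 1, y 2), y 3))
          (Measure.pi fun _ => mu) ((mu.prod (mu.prod mu)).prod mu) := by
        refine ⟨h1, ?_⟩
        rw [← quad_mp.map_eq, Measure.map_map h1 quad_mp.measurable]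
        have h3 : (fun y : Fin 4 → Om => ((y 0, y 1, y 2), y 3)) ∘
            (fun q : Tr × Om => quad q.1 q.2) = id := by
          funext q
          rfl
        rw [h3, Measure.map_id]
      have h4 := (fP_null r).preimage h2.quasiMeasurePreserving
      have h5 : {y : Fin 4 → Om | cond (Rel.P r) y} =
          (fun y : Fin 4 → Om => ((y 0, y 1, y 2), y 3)) ⁻¹' {q : Tr × Om | fP (D r q.1) q.2} := rfl
      rw [h5]
      exact h4
  exact key.preimage vals_mp.quasiMeasurePreserving

theorem exists_values {N' : Euc L0} (hN' : IsStrong T0 N') (V : Type) [Finite V] (x : Pt V)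
    (hx : x ∉ Diag V) : ∃ w : V → Om, ∀ (k : ℕ) (P : L0.Relations k) (α : Fin k ↪ V),
      pull α x ∈ N' k P ↔ cond P (fun i => w (α i)) := by
  let inst : L0.Structure V :=
    { funMap := fun f => isEmptyElim f
      RelMap := fun {k} P v => ∃ h : Function.Injective v, pull ⟨v, h⟩ x ∈ N' k P }
  have hC : Canonical L0 V := fun k P v ⟨h, _⟩ => h
  have hM : V ⊨ T0 := by
    by_contra h
    exact hx (hN'.2 V hC h fun k P α => ⟨fun h1 => ⟨α.injective, h1⟩, fun ⟨_, h1⟩ => h1⟩)
  obtain ⟨f⟩ := embeds hM
  refine ⟨fun v => val (f v), fun k P α => ?_⟩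
  have h1 := f.map_rel P α
  constructor
  · intro h2
    exact (h1.mpr ⟨α.injective, h2⟩).2
  · intro h2
    obtain ⟨_, h3⟩ := h1.mp ⟨f.injective.comp α.injective, h2⟩
    exact h3

/-- Sorts. -/
abbrev Ka : Type := Bool × Fin 3

/-- Sort pattern of the comparison predicates. -/
def pat6 (i : Bool) : Fin 6 → Ka := ![(i, 0), (i, 1), (i, 2), (!i, 0), (!i, 1), (!i, 2)]

/-- Sort pattern of the parity predicates. -/
def pat4 (i : Bool) : Fin 4 → Ka := ![(i, 0), (i, 1), (i, 2), (!i, 1)]

theorem pat6_inj (i : Bool) : Function.Injective (pat6 i) := by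
  revert i; decide

theorem pat4_inj (i : Bool) : Function.Injective (pat4 i) := by
  revert i; decide

theorem impossible {N' : Euc L0} (hN' : IsStrong T0 N') (hB : IsBorel N')
    (hae : ∀ k P, volume (symmDiff (N0 k P) (N' k P)) = 0) : False := by
  classical
  have hc1 : ∀ᵐ c : Pt Ka, ∀ i r r', ∀ᵐ y ∂(Measure.pi fun _ : Fin 6 => mu),
      pt (pat6 i) y c ∉ symmDiff (N0 6 (Rel.K r r')) (N' 6 (Rel.K r r')) := by
    rw [ae_all_iff]; intro i
    rw [ae_all_iff]; intro r
    rw [ae_all_iff]; intro r'
    exact gen (pat6 i) (pat6_inj i) (hae 6 (Rel.K r r'))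
  obtain ⟨c, hc1, hc2, hc3⟩ := (hc1.and ((A_ae (κ := Ka)).and (distinct_ae (κ := Ka)))).exists
  let A : Set Om := {b | ∀ k, pr (sec (b, dig (c (sg k)))) = (b, dig (c (sg k)))}
  have hAm : MeasurableSet A := by
    have : A = ⋂ k, {b | pr (sec (b, dig (c (sg k)))) = (b, dig (c (sg k)))} := by
      ext b; simp [A]
    rw [this]
    refine MeasurableSet.iInter fun k => ?_
    exact measurableSet_eq_fun
      ((pr_mp.measurable.comp sec_mp.measurable).comp (measurable_id.prodMk measurable_const))
      (measurable_id.prodMk measurable_const)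
  -- the points for finite sets of values
  have hx : ∀ j : Finset A, (pt (fun v : Ka × j => v.1) (fun v => v.2.1.1) c : Pt (Ka × j)) ∉
      Diag (Ka × j) := by
    rintro j ⟨v, w, hvw, h⟩
    have h' : pt (fun v : Ka × j => v.1) (fun v => v.2.1.1) c (sg v) =
        pt (fun v : Ka × j => v.1) (fun v => v.2.1.1) c (sg w) := h
    rw [pt_sg, pt_sg] at h'
    have h1 := congrArg pr h'
    rw [v.2.1.2 v.1, w.2.1.2 w.1, Prod.mk.injEq] at h1
    apply hvw
    have h2 : v.1 = w.1 := by
      by_contra hne
      exact hc3 v.1 w.1 hne h1.2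
    exact Prod.ext h2 (Subtype.ext (Subtype.ext h1.1))
  choose w hw using fun j : Finset A => exists_values hN' (Ka × j) _ (hx j)
  let e : Finset A → Bool → Fin 3 → Om → Om := fun j i k b =>
    if h : ∃ hb : b ∈ A, (⟨b, hb⟩ : A) ∈ j then w j ((i, k), ⟨⟨b, h.choose⟩, h.choose_spec⟩) else 0
  have he : ∀ (j : Finset A) (i : Bool) (k : Fin 3) (b : A) (hb : b ∈ j),
      e j i k b = w j ((i, k), ⟨b, hb⟩) := by
    intro j i k b hb
    have h : ∃ hb : (b : Om) ∈ A, (⟨b, hb⟩ : A) ∈ j := ⟨b.2, hb⟩
    simp only [e, dif_pos h]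
  -- transfer for patterns
  have htr : ∀ (n : ℕ) (P : L0.Relations n) (π : Fin n → Ka), Function.Injective π →
      ∀ y : Fin n → Om, (∀ m, y m ∈ A) → ∀ᶠ j in (Filter.atTop : Filter (Finset A)),
        (pt π y c ∈ N' n P ↔ cond P (fun m => e j (π m).1 (π m).2 (y m))) := by
    intro n P π hπ y hy
    let s : Finset A := Finset.univ.image fun m => (⟨y m, hy m⟩ : A)
    filter_upwards [Filter.eventually_ge_atTop s] with j hj
    have hmem : ∀ m, (⟨y m, hy m⟩ : A) ∈ j := fun m =>
      hj (Finset.mem_image_of_mem _ (Finset.mem_univ m))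
    let α : Fin n ↪ Ka × j := ⟨fun m => (π m, ⟨⟨y m, hy m⟩, hmem m⟩), fun a b hab =>
      hπ (congrArg Prod.fst hab)⟩
    have h1 := hw j n P α
    have h2 : pull α (pt (fun v : Ka × j => v.1) (fun v => v.2.1.1) c) = pt π y c :=
      pul_pt α (fun v : Ka × j => v.1) (fun v => v.2.1.1) c
    rw [h2] at h1
    rw [h1]
    have h3 : (fun m => e j (π m).1 (π m).2 (y m)) = fun m => w j (α m) := by
      funext m
      exact he j (π m).1 (π m).2 ⟨y m, hy m⟩ (hmem m)
    rw [h3]
  have hin6 : ∀ t t' : Tr, t ∈ In A → t' ∈ In A → ∀ m, six t t' m ∈ A := by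
    rintro t t' ⟨h0, h1, h2⟩ ⟨h3, h4, h5⟩ m
    fin_cases m
    exacts [h0, h1, h2, h3, h4, h5]
  have hin4 : ∀ (t : Tr) (b : Om), t ∈ In A → b ∈ A → ∀ m, quad t b m ∈ A := by
    rintro t b ⟨h0, h1, h2⟩ h3 m
    fin_cases m
    exacts [h0, h1, h2, h3]
  let σ : Sys mu :=
    { A := A
      K := fun i r r' t t' => pt (pat6 i) (six t t') c ∈ N' 6 (Rel.K r r')
      P := fun i r t b => pt (pat4 i) (quad t b) c ∈ N' 4 (Rel.P r)
      J := Finset A
      F := Filter.atTop
      e := e
      A_meas := hAm
      A_ae := hc2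
      K_meas := fun i r r' =>
        ((pt_meas (pat6 i) c).comp six_mp.measurable) (hB 6 (Rel.K r r'))
      P_meas := fun i r t => by
        have h1 : Measurable fun b : Om => quad t b :=
          quad_mp.measurable.comp (measurable_const.prodMk measurable_id)
        exact ((pt_meas (pat4 i) c).comp h1) (hB 4 (Rel.P r))
      K_ae := fun i r r' => by
        have h1 : ∀ᵐ y ∂(Measure.pi fun _ : Fin 6 => mu),
            (pt (pat6 i) y c ∈ N' 6 (Rel.K r r') ↔ cond (Rel.K r r') y) := by
          have h2 : ∀ᵐ y ∂(Measure.pi fun _ : Fin 6 => mu), ∀ m, y m ∈ A := by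
            rw [ae_all_iff]
            intro m
            exact (measurePreserving_eval (fun _ : Fin 6 => mu) m).quasiMeasurePreserving.ae hc2
          filter_upwards [hc1 i r r', h2] with y hy1 hy2
          have h3 : pt (pat6 i) y c ∈ N0 6 (Rel.K r r') ↔ cond (Rel.K r r') y := by
            refine (mem_N0 (k := 6) (Rel.K r r') _).trans ?_
            have h4 : (fun m => val (pt (pat6 i) y c (sg m))) = y := by
              funext m
              rw [pt_sg, val, hy2 m (pat6 i m)]
            rw [h4]
          rw [← h3]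
          rw [Set.mem_symmDiff] at hy1
          tauto
        exact six_mp.quasiMeasurePreserving.ae h1
      neBot := inferInstance
      hK := fun i r r' t t' ht ht' => by
        filter_upwards [htr 6 (Rel.K r r') (pat6 i) (pat6_inj i) (six t t') (hin6 t t' ht ht')]
          with j hj
        exact hj
      hP := fun i r t b ht hb => by
        filter_upwards [htr 4 (Rel.P r) (pat4 i) (pat4_inj i) (quad t b) (hin4 t b ht hb)]
          with j hj
        exact hj }
  exact σ.false

/-- **Theorem** (negative answer to Q1).  There are a language, a canonical universal theory `T` in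
it and a strong `T`-on `N` such that no Borel strong `T`-on `N'` satisfies
`λ(N_P ∆ N'_P) = 0` for all `P`. -/
theorem result : ∃ (L : FirstOrder.Language.{0, 0}) (T : L.Theory),
    IsPredicateLanguage L ∧ IsCanonicalUniversal T ∧
    ∃ N : Euc L, IsStrong T N ∧
      ¬ ∃ N' : Euc L, IsBorel N' ∧ IsStrong T N' ∧
        ∀ (k : ℕ) (P : L.Relations k), volume (symmDiff (N k P) (N' k P)) = 0 := by
  refine ⟨L0, T0, ⟨fun k => inferInstanceAs (IsEmpty Empty), inferInstance, ⟨fun P => by cases P⟩⟩,
    ⟨fun φ h => h.1, canonical_of_models⟩, N0, ⟨null0, ?_⟩, ?_⟩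
  · intro V _ _ hC hV
    exact strong0 V hC hV
  · rintro ⟨N', h1, h2, h3⟩
    exact impossible h2 h1 h3

end Pool.Agent.Results.MP_351e8f_co.NoBorelStrongTheon
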